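import Mathlib

/-!
# The subgroup lattice of `(ℤ/m)³`, `m` composite, embeds in no subspace lattice over a division ring
-/

set_option autoImplicit false

namespace Pool.Agent.Results.MP_0a2dc5_al.NoEmbedding

open AddSubgroup

universe u v

section lines
variable {m : ℕ}

/-- the cyclic subgroup generated by `(a,b,c)` -/
def line (a b c : ZMod m) : AddSubgroup (Fin 3 → ZMod m) := zmultiples ![a, b, c]

theorem mem_line {a b c : ZMod m} {w : Fin 3 → ZMod m} :
    w ∈ line a b c ↔ ∃ t : ZMod m, w 0 = t * a ∧ w 1 = t * b ∧ w 2 = t * c := by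
  unfold line
  rw [mem_zmultiples_iff]
  constructor
  · rintro ⟨t, rfl⟩
    exact ⟨t, by simp, by simp, by simp⟩
  · rintro ⟨t, h0, h1, h2⟩
    obtain ⟨k, rfl⟩ := ZMod.intCast_surjective t
    refine ⟨k, ?_⟩
    funext i
    fin_cases i
    · simp [h0]
    · simp [h1]
    · simp [h2]

theorem step_le (k : ZMod m) :
    (((line 1 k 0 ⊔ line 0 1 1) ⊓ (line 1 0 1 ⊔ line 0 1 0)) ⊔ line 0 0 1) ⊓
      (line 1 0 0 ⊔ line 0 1 0) ≤ line 1 (k + 1) (0 : ZMod m) := by
  intro w hw
  obtain ⟨hw1, hw2⟩ := hw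
  obtain ⟨a, ha, b, hb, rfl⟩ := mem_sup.mp hw1
  obtain ⟨ha1, ha2⟩ := ha
  obtain ⟨a1, h1, a2, h2, h12⟩ := mem_sup.mp ha1
  obtain ⟨a3, h3, a4, h4, h34⟩ := mem_sup.mp ha2
  obtain ⟨c1, hc1, c2, hc2, hc⟩ := mem_sup.mp hw2
  rw [mem_line] at *
  obtain ⟨t1, h10, h11, h12'⟩ := h1
  obtain ⟨t2, h20, h21, h22⟩ := h2
  obtain ⟨t3, h30, h31, h32⟩ := h3
  obtain ⟨t4, h40, h41, h42⟩ := h4
  obtain ⟨t5, hb0, hb1, hb2⟩ := hb
  obtain ⟨t6, hc10, hc11, hc12⟩ := hc1
  obtain ⟨t7, hc20, hc21, hc22⟩ := hc2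
  have e0 := congrFun h12 0
  have e1 := congrFun h12 1
  have e2 := congrFun h12 2
  have f0 := congrFun h34 0
  have f1 := congrFun h34 1
  have f2 := congrFun h34 2
  have g2 := congrFun hc 2
  simp only [Pi.add_apply] at e0 e1 e2 f0 f1 f2 g2 ⊢
  refine ⟨t1, ?_, ?_, ?_⟩
  · rw [hb0, ← e0, h10, h20]; ring
  · have c : t3 = t1 := by linear_combination f0 - e0 - h30 - h40 + h10 + h20
    have d : t2 = t3 := by linear_combination e2 - f2 - h12' - h22 + h32 + h42
    have : t2 = t1 := d.trans c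
    rw [hb1, ← e1, h11, h21, this]; ring
  · rw [← g2, hc12, hc22]; ring

theorem disj12 : line 1 0 0 ⊓ line (0 : ZMod m) 1 0 = ⊥ := by
  rw [eq_bot_iff]
  intro w hw
  obtain ⟨h1, h2⟩ := AddSubgroup.mem_inf.mp hw
  rw [mem_line] at h1 h2
  obtain ⟨t, ht0, ht1, ht2⟩ := h1
  obtain ⟨s, hs0, hs1, hs2⟩ := h2
  rw [mem_bot]
  funext i
  fin_cases i
  · simpa using hs0
  · simpa using ht1
  · simpa using ht2

theorem disj23 : line 0 1 1 ⊓ line (0 : ZMod m) 0 1 = ⊥ := by
  rw [eq_bot_iff]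
  intro w hw
  obtain ⟨h1, h2⟩ := AddSubgroup.mem_inf.mp hw
  rw [mem_line] at h1 h2
  obtain ⟨t, ht0, ht1, ht2⟩ := h1
  obtain ⟨s, hs0, hs1, hs2⟩ := h2
  have : t = 0 := by
    rw [hs1] at ht1; simpa using ht1.symm
  rw [mem_bot]
  funext i
  fin_cases i
  · simpa using hs0
  · simpa using hs1
  · simpa [this] using ht2

theorem disj13 : line 1 0 1 ⊓ line (1 : ZMod m) 0 0 = ⊥ := by
  rw [eq_bot_iff]
  intro w hw
  obtain ⟨h1, h2⟩ := AddSubgroup.mem_inf.mp hw
  rw [mem_line] at h1 h2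
  obtain ⟨t, ht0, ht1, ht2⟩ := h1
  obtain ⟨s, hs0, hs1, hs2⟩ := h2
  have : t = 0 := by
    rw [hs2] at ht2; simpa using ht2.symm
  rw [mem_bot]
  funext i
  fin_cases i
  · simpa [this] using ht0
  · simpa using hs1
  · simpa using hs2

theorem le13 : line (1 : ZMod m) 0 0 ≤ line 1 0 1 ⊔ line 0 0 1 := by
  intro w hw
  rw [mem_line] at hw
  obtain ⟨t, h0, h1, h2⟩ := hw
  rw [mem_sup]
  refine ⟨![t, 0, t], ?_, ![0, 0, -t], ?_, ?_⟩
  · rw [mem_line]; exact ⟨t, by simp, by simp, by simp⟩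
  · rw [mem_line]; exact ⟨-t, by simp, by simp, by simp⟩
  · funext i
    fin_cases i
    · simp [h0]
    · simp [h1]
    · simp [h2]

theorem le23 : line (0 : ZMod m) 0 1 ≤ line 0 1 1 ⊔ line 0 1 0 := by
  intro w hw
  rw [mem_line] at hw
  obtain ⟨t, h0, h1, h2⟩ := hw
  rw [mem_sup]
  refine ⟨![0, t, t], ?_, ![0, -t, 0], ?_, ?_⟩
  · rw [mem_line]; exact ⟨t, by simp, by simp, by simp⟩
  · rw [mem_line]; exact ⟨-t, by simp, by simp, by simp⟩
  · funext i
    fin_cases i
    · simp [h0]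
    · simp [h1]
    · simp [h2]

end lines

/-- the key computation -/
theorem claims {m : ℕ} {D : Type*} [DivisionRing D] {V : Type*} [AddCommGroup V] [Module D V]
    (φ : LatticeHom (AddSubgroup (Fin 3 → ZMod m)) (Submodule D V)) {x : V}
    (hx : x ∈ φ (line 1 0 0)) :
    ∃ y : V, (∀ k : ℕ, x + (k : D) • y ∈ φ (line 1 (k : ZMod m) 0)) ∧
      ((m : D) ≠ 0 → x ∈ φ ⊥) := by
  have hmono : Monotone φ := OrderHomClass.mono φ
  have hbot : ∀ S, φ ⊥ ≤ φ S := fun S => hmono bot_le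
  have hx' : x ∈ φ (line 1 0 1) ⊔ φ (line 0 0 1) := by
    rw [← SupHomClass.map_sup φ]; exact hmono le13 hx
  obtain ⟨g, hg, z, hz, hgz⟩ := Submodule.mem_sup.mp hx'
  have hz' : -z ∈ φ (line 0 1 1) ⊔ φ (line 0 1 0) := by
    rw [← SupHomClass.map_sup φ]; exact hmono le23 (neg_mem hz)
  obtain ⟨g', hg', y', hy', hgy⟩ := Submodule.mem_sup.mp hz'
  set y := -y' with hy
  have hyP : y ∈ φ (line 0 1 0) := neg_mem hy'
  have e1 : x + -z = g := by rw [← hgz]; abel
  have e2 : y + -z = g' := by rw [hy, ← hgy]; abel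
  have claim : ∀ k : ℕ, x + (k : D) • y ∈ φ (line 1 (k : ZMod m) 0) := by
    intro k
    induction k with
    | zero => simpa using hx
    | succ k ih =>
      have hle := hmono (step_le (k : ZMod m))
      simp only [SupHomClass.map_sup φ, InfHomClass.map_inf φ] at hle
      rw [Nat.cast_succ (R := ZMod m)]
      apply hle
      refine ⟨?_, ?_⟩
      · have h1 : (x + (k : D) • y) + (y + -z) ∈ φ (line 1 (k : ZMod m) 0) ⊔ φ (line 0 1 1) :=
          add_mem (Submodule.mem_sup_left ih) (Submodule.mem_sup_right (e2 ▸ hg'))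
        have h2 : (x + -z) + ((k + 1 : ℕ) : D) • y ∈ φ (line (1 : ZMod m) 0 1) ⊔ φ (line 0 1 0) :=
          add_mem (Submodule.mem_sup_left (e1 ▸ hg))
            (Submodule.mem_sup_right (Submodule.smul_mem _ _ hyP))
        have h3 : (x + (k : D) • y) + (y + -z) = (x + -z) + ((k + 1 : ℕ) : D) • y := by
          push_cast
          rw [add_smul, one_smul]; abel
        have h4 : x + ((k + 1 : ℕ) : D) • y = ((x + -z) + ((k + 1 : ℕ) : D) • y) + z := by abel
        rw [h4]
        refine add_mem (Submodule.mem_sup_left ⟨?_, h2⟩) (Submodule.mem_sup_right hz)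
        rw [← h3]
        exact h1
      · exact add_mem (Submodule.mem_sup_left hx)
          (Submodule.mem_sup_right (Submodule.smul_mem _ _ hyP))
  refine ⟨y, claim, fun hD => ?_⟩
  have h1 := claim m
  rw [ZMod.natCast_self] at h1
  have h2 : (m : D) • y ∈ φ (line (1 : ZMod m) 0 0) := by
    have := sub_mem h1 hx
    simpa using this
  have h3 : (m : D) • y ∈ φ ⊥ := by
    rw [← disj12, InfHomClass.map_inf φ]
    exact ⟨h2, Submodule.smul_mem _ _ hyP⟩
  have h4 : y ∈ φ ⊥ := by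
    have := Submodule.smul_mem _ ((m : D)⁻¹) h3
    rwa [smul_smul, inv_mul_cancel₀ hD, one_smul] at this
  have h5 : -z ∈ φ ⊥ := by
    rw [← disj23, InfHomClass.map_inf φ]
    refine ⟨?_, neg_mem hz⟩
    have : -z = g' - y := by rw [← e2]; abel
    rw [this]
    exact sub_mem hg' (hbot _ h4)
  rw [← disj13, InfHomClass.map_inf φ]
  refine ⟨?_, hx⟩
  have : x = g - -z := by rw [← e1]; abel
  rw [this]
  exact sub_mem hg (hbot _ h5)

theorem le_of_map_le {m : ℕ} {D : Type*} [DivisionRing D] {V : Type*} [AddCommGroup V]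
    [Module D V] (φ : LatticeHom (AddSubgroup (Fin 3 → ZMod m)) (Submodule D V))
    (hφ : Function.Injective φ) {a b : AddSubgroup (Fin 3 → ZMod m)} (h : φ a ≤ φ b) : a ≤ b := by
  have h1 : φ (a ⊓ b) = φ a := by
    rw [InfHomClass.map_inf φ]
    exact inf_eq_left.mpr h
  exact inf_eq_left.mp (hφ h1)

theorem one_mem (m : ℕ) : (![1, 0, 0] : Fin 3 → ZMod m) ∈ line (1 : ZMod m) 0 0 := by
  rw [mem_line]
  exact ⟨1, by simp, by simp, by simp⟩

/-- For every composite number `m` the finite abelian group `A = (ℤ/m)³` has the following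
property: for no division ring `D` and no `D`-vector space `V` (of any dimension) there is an
injective map from the lattice of all subgroups of `A` to the lattice of all subspaces of `V` which
preserves binary joins and meets.  The smallest example is `(ℤ/4)³`. -/
theorem result (m : ℕ) (h1 : 1 < m) (hm : ¬ m.Prime) :
    Finite (Fin 3 → ZMod m) ∧
      ∀ (D : Type u) [DivisionRing D] (V : Type v) [AddCommGroup V] [Module D V]
        (f : LatticeHom (AddSubgroup (Fin 3 → ZMod m)) (Submodule D V)),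
        ¬ Function.Injective f := by
  have : NeZero m := ⟨by omega⟩
  have : Fact (1 < m) := ⟨h1⟩
  refine ⟨inferInstance, ?_⟩
  intro D _ V _ _ φ hφ
  have hmono : Monotone φ := OrderHomClass.mono φ
  have hlb : ¬ line (1 : ZMod m) 0 0 ≤ ⊥ := by
    intro h
    have h2 := h (one_mem m)
    rw [AddSubgroup.mem_bot] at h2
    have h3 := congrFun h2 0
    simp at h3
  have hmD : (m : D) = 0 := by
    by_contra hD
    apply hlb
    apply le_of_map_le φ hφ
    intro x hx
    obtain ⟨y, -, h⟩ := claims φ hx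
    exact h hD
  have hp : (ringChar D).Prime := by
    rcases CharP.char_is_prime_or_zero D (ringChar D) with h | h
    · exact h
    · exfalso
      have h2 := (ringChar.spec D m).mp hmD
      rw [h] at h2
      have := Nat.eq_zero_of_zero_dvd h2
      omega
  have h3 : line (1 : ZMod m) 0 0 ≤ line 1 ((ringChar D : ℕ) : ZMod m) 0 := by
    apply le_of_map_le φ hφ
    intro x hx
    obtain ⟨y, h, -⟩ := claims φ hx
    have h2 := h (ringChar D)
    rwa [ringChar.Nat.cast_ringChar, zero_smul, add_zero] at h2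
  have h4 := h3 (one_mem m)
  rw [mem_line] at h4
  obtain ⟨t, ht0, ht1, -⟩ := h4
  simp only [Matrix.cons_val_zero, Matrix.cons_val_one, mul_one] at ht0 ht1
  rw [← ht0, one_mul] at ht1
  have h5 : m ∣ ringChar D := (ZMod.natCast_eq_zero_iff _ _).mp ht1.symm
  rcases (Nat.dvd_prime hp).mp h5 with h6 | h6
  · omega
  · exact hm (h6 ▸ hp)

end Pool.Agent.Results.MP_0a2dc5_al.NoEmbedding
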